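import Pool.Agent.W617.LG.StmII

/-! Local smooth adapted frames (MP_7dd29b_gt). -/
set_option autoImplicit false
set_option maxSynthPendingDepth 4
open Topology Filter Set
open scoped ContDiff InnerProductSpace

namespace Pool.Agent.W351.LG.Frm
open Pool.Agent.W617.LG

lemma onb {q : ℕ} {x : E q} {e : Fin (q + 1) → E q} (hx0 : x ≠ 0)
    (hon : ∀ i j, ⟪e i, e j⟫_ℝ = if i = j then 1 else 0) (hrad : ∀ i, ⟪x, e i⟫_ℝ = 0) :
    ∃ b : OrthonormalBasis (Fin (q + 2)) ℝ (E q), b 0 = ‖x‖⁻¹ • x ∧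
      ∀ i : Fin (q + 1), b i.succ = e i := by
  have hx1 : ‖x‖ ≠ 0 := norm_ne_zero_iff.2 hx0
  have hxx : ⟪‖x‖⁻¹ • x, ‖x‖⁻¹ • x⟫_ℝ = 1 := by
    rw [real_inner_smul_left, real_inner_smul_right, real_inner_self_eq_norm_sq]
    field_simp
  have hxe : ∀ i, ⟪‖x‖⁻¹ • x, e i⟫_ℝ = 0 := by
    intro i
    rw [real_inner_smul_left, hrad i, mul_zero]
  have ho : Orthonormal ℝ (Fin.cons (‖x‖⁻¹ • x) e : Fin (q + 2) → E q) := by
    rw [orthonormal_iff_ite]
    intro i j
    refine Fin.cases ?_ (fun i => ?_) i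
    · refine Fin.cases ?_ (fun j => ?_) j
      · rw [Fin.cons_zero, hxx, if_pos rfl]
      · rw [Fin.cons_zero, Fin.cons_succ, hxe j, if_neg (Fin.succ_ne_zero j).symm]
    · refine Fin.cases ?_ (fun j => ?_) j
      · rw [real_inner_comm, Fin.cons_zero, Fin.cons_succ, hxe i, if_neg (Fin.succ_ne_zero i)]
      · rw [Fin.cons_succ, Fin.cons_succ, hon i j]
        simp
  have hc : Fintype.card (Fin (q + 2)) = Module.finrank ℝ (E q) := by simp
  let B := basisOfOrthonormalOfCardEqFinrank ho hc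
  have hB : (B : Fin (q + 2) → E q) = Fin.cons (‖x‖⁻¹ • x) e :=
    coe_basisOfOrthonormalOfCardEqFinrank ho hc
  have hoB : Orthonormal ℝ B := by rw [hB]; exact ho
  refine ⟨B.toOrthonormalBasis hoB, ?_, fun i => ?_⟩
  · rw [Module.Basis.coe_toOrthonormalBasis, hB]; simp
  · rw [Module.Basis.coe_toOrthonormalBasis, hB]; simp

lemma eq_of_inner {q : ℕ} (b : OrthonormalBasis (Fin (q + 2)) ℝ (E q)) (v w : E q)
    (h : ∀ i, ⟪b i, v⟫_ℝ = ⟪b i, w⟫_ℝ) : v = w := by
  rw [← b.sum_repr' v, ← b.sum_repr' w]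
  simp only [h]

lemma b_on {q : ℕ} (b : OrthonormalBasis (Fin (q + 2)) ℝ (E q)) (i j : Fin (q + 2)) :
    ⟪b i, b j⟫_ℝ = if i = j then 1 else 0 :=
  (orthonormal_iff_ite.1 b.orthonormal) i j

/-- eigenvectors of a symmetric operator with simple spectrum -/
lemma eig_span {q : ℕ} (b : OrthonormalBasis (Fin (q + 2)) ℝ (E q)) (T : E q →L[ℝ] E q)
    (ν : Fin (q + 2) → ℝ) (hsym : ∀ a c, ⟪T a, c⟫_ℝ = ⟪T c, a⟫_ℝ)
    (hb : ∀ j, T (b j) = ν j • b j) (hν : Function.Injective ν) (k : Fin (q + 2)) (w : E q)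
    (hw : T w = ν k • w) : w = ⟪b k, w⟫_ℝ • b k := by
  apply eq_of_inner b
  intro i
  rw [real_inner_smul_right, b_on]
  by_cases hik : i = k
  · subst hik; simp
  · rw [if_neg hik, mul_zero]
    have h1 := hsym w (b i)
    rw [hw, hb, real_inner_smul_left, real_inner_smul_left, real_inner_comm (b i) w] at h1
    have h2 : (ν k - ν i) * ⟪b i, w⟫_ℝ = 0 := by linarith
    rcases mul_eq_zero.1 h2 with h3 | h3
    · exact absurd (hν (by linarith)) hik
    · exact h3

/-- the value of `C` on an adapted frame -/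
lemma Cei {q : ℕ} {C : TF q} {τ : E q → ℝ} (hL : LW q C τ) {x : E q} {e : Fin (q + 1) → E q}
    (h : AF C x e) (i : Fin (q + 1)) (v : E q) :
    C x (e i) v = (lam C x (e i) * ⟪e i, v⟫_ℝ) • e i := by
  obtain ⟨b, hb0, hb⟩ := onb h.x0 h.on h.rad
  have hx : ∀ a c : E q, ⟪x, C x a c⟫_ℝ = 0 := by
    intro a c
    rw [real_inner_comm, hL.symm x h.x0, hL.comm12 x h.x0, hL.rad x h.x0]
    simp
  have h00 : C x (e i) (e i) = lam C x (e i) • e i := by
    apply eq_of_inner b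
    intro j
    refine Fin.cases ?_ (fun j => ?_) j
    · rw [hb0, real_inner_smul_left, real_inner_smul_left, hx, real_inner_smul_right, h.rad]
      simp
    · rw [hb, real_inner_smul_right, h.on j i]
      by_cases hj : j = i
      · subst hj
        rw [real_inner_comm]
        simp [lam]
      · rw [real_inner_comm, hL.symm x h.x0, h.diag i j (fun h' => hj h'.symm)]
        simp [hj]
  apply eq_of_inner b
  intro j
  refine Fin.cases ?_ (fun j => ?_) j
  · rw [hb0, real_inner_smul_left, real_inner_smul_left, hx, real_inner_smul_right, h.rad]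
    simp
  · rw [hb, real_inner_smul_right, h.on j i]
    by_cases hj : j = i
    · subst hj
      rw [real_inner_comm, hL.symm x h.x0, h00, real_inner_smul_left]
      simp
    · rw [real_inner_comm, hL.symm x h.x0, h.diag i j (fun h' => hj h'.symm)]
      simp [hj]

/-- the symmetric operator with simple spectrum -/
noncomputable def SS {q : ℕ} (C : TF q) (u x : E q) : E q →L[ℝ] E q :=
  C x u - ((‖x‖ ^ 2)⁻¹) • (innerSL ℝ x).smulRight x

lemma SS_apply {q : ℕ} (C : TF q) (u x a : E q) :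
    SS C u x a = C x u a - ((‖x‖ ^ 2)⁻¹ * ⟪x, a⟫_ℝ) • x := by
  simp [SS, smul_smul]

lemma SS_smooth {q : ℕ} {C : TF q} {τ : E q → ℝ} (hL : LW q C τ) (u x : E q) (hx : x ≠ 0) :
    ContDiffAt ℝ ∞ (SS C u) x := by
  unfold SS
  have h1 : ContDiffAt ℝ ∞ (fun x => C x u) x := (hL.smooth x hx).clm_apply contDiffAt_const
  have h2 : ContDiffAt ℝ ∞ (fun x : E q => (‖x‖ ^ 2)⁻¹) x := by
    refine (contDiffAt_id.norm_sq ℝ).inv ?_
    have := norm_ne_zero_iff.2 hx
    simpa using this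
  have h3 : ContDiff ℝ ∞ (fun x : E q => (innerSL ℝ x).smulRight x) := by
    rw [contDiff_clm_apply_iff]
    intro y
    have h4 : (fun x : E q => ((innerSL ℝ x).smulRight x) y) = fun x : E q => ⟪x, y⟫_ℝ • x := by
      funext x
      simp
    rw [h4]
    exact (contDiff_id.inner ℝ contDiff_const).smul contDiff_id
  exact h1.sub (h2.smul h3.contDiffAt)

lemma SS_symm {q : ℕ} {C : TF q} {τ : E q → ℝ} (hL : LW q C τ) (u x : E q) (hx : x ≠ 0)
    (a b : E q) : ⟪SS C u x a, b⟫_ℝ = ⟪SS C u x b, a⟫_ℝ := by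
  rw [SS_apply, SS_apply, inner_sub_left, inner_sub_left, hL.symm x hx u a b,
    real_inner_smul_left, real_inner_smul_left]
  ring

lemma SS_x {q : ℕ} {C : TF q} {τ : E q → ℝ} (hL : LW q C τ) (u x : E q) (hx : x ≠ 0) :
    SS C u x x = (-1 : ℝ) • x := by
  have hn : ‖x‖ ≠ 0 := norm_ne_zero_iff.2 hx
  rw [SS_apply, hL.comm12 x hx, hL.rad x hx, real_inner_self_eq_norm_sq,
    inv_mul_cancel₀ (pow_ne_zero 2 hn)]
  simp

/-- `C_a` commutes with `S` -/
lemma SS_comm {q : ℕ} {C : TF q} {τ : E q → ℝ} (hL : LW q C τ) (u x : E q) (hx : x ≠ 0)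
    (a w : E q) : SS C u x (C x a w) = C x a (SS C u x w) := by
  have h1 : ⟪x, C x a w⟫_ℝ = 0 := by
    rw [real_inner_comm, hL.symm x hx, hL.comm12 x hx, hL.rad x hx]
    simp
  have h2 : C x a x = 0 := by
    rw [hL.comm12 x hx, hL.rad x hx]
    simp
  rw [SS_apply, SS_apply, h1, map_sub, map_smul, h2, hL.comm x hx u a w]
  simp

theorem frm (hE : S_EIG) : S_FRAME' := by
  intro q C τ hL x₀ e₀ hA hl
  obtain ⟨b, hb0, hb⟩ := onb hA.x0 hA.on hA.rad
  obtain ⟨u, hu⟩ : ∃ u : E q, u = ∑ l : Fin q,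
    ((((l : ℕ) : ℝ) + 1) / lam C x₀ (e₀ l.succ)) • e₀ l.succ := ⟨_, rfl⟩
  have hu0 : ⟪e₀ 0, u⟫_ℝ = 0 := by
    rw [hu, inner_sum]
    refine Finset.sum_eq_zero fun l _ => ?_
    rw [real_inner_smul_right, hA.on, if_neg (Fin.succ_ne_zero l).symm, mul_zero]
  have hul : ∀ l : Fin q, ⟪e₀ l.succ, u⟫_ℝ = (((l : ℕ) : ℝ) + 1) / lam C x₀ (e₀ l.succ) := by
    intro l
    rw [hu, inner_sum]
    rw [Finset.sum_eq_single l]
    · rw [real_inner_smul_right, hA.on, if_pos rfl, mul_one]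
    · intro k _ hk
      rw [real_inner_smul_right, hA.on, if_neg, mul_zero]
      intro h'
      exact hk (Fin.succ_injective _ h').symm
    · intro h'
      exact absurd (Finset.mem_univ l) h'
  have hSe : ∀ i : Fin (q + 1), SS C u x₀ (e₀ i) = (((i : ℕ) : ℝ)) • e₀ i := by
    intro i
    rw [SS_apply, hA.rad i, mul_zero, zero_smul, sub_zero, hL.comm12 x₀ hA.x0, Cei hL hA]
    refine Fin.cases ?_ (fun l => ?_) i
    · rw [hu0]; simp
    · rw [hul, mul_div_cancel₀ _ (hl l)]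
      simp
  have hsucc : ∀ (ν0 : ℝ) (ν : Fin (q + 1) → ℝ), (∀ i, ν0 ≠ ν i) → Function.Injective ν →
      Function.Injective (Fin.cons ν0 ν : Fin (q + 2) → ℝ) := by
    intro ν0 ν h1 h2
    exact Fin.cons_injective_iff.2 ⟨fun ⟨i, hi⟩ => h1 i hi.symm, h2⟩
  -- eigenvector fields
  have hex : ∀ i : Fin (q + 1), ∃ (v : E q → E q) (μ : E q → ℝ), v x₀ = e₀ i ∧
      μ x₀ = (((i : ℕ) : ℝ)) ∧
      ∀ᶠ x in 𝓝 x₀, ContDiffAt ℝ ∞ v x ∧ ContDiffAt ℝ ∞ μ x ∧ SS C u x (v x) = μ x • v x ∧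
        ‖v x‖ = 1 := by
    intro i
    have hne : ∀ᶠ x in 𝓝 x₀, x ≠ 0 := isOpen_ne.mem_nhds hA.x0
    refine hE q (SS C u) x₀ (e₀ i) _ ?_ ?_ ?_ (hSe i) ?_
    · filter_upwards [hne] with x hx
      exact SS_smooth hL u x hx
    · filter_upwards [hne] with x hx
      exact SS_symm hL u x hx
    · have h1 := hA.on i i
      rw [if_pos rfl, real_inner_self_eq_norm_sq] at h1
      nlinarith [norm_nonneg (e₀ i)]
    · intro w hw
      have h1 := eig_span b (SS C u x₀) (Fin.cons (-1) (fun i : Fin (q + 1) => ((i : ℕ) : ℝ)))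
        (SS_symm hL u x₀ hA.x0) ?_ ?_ i.succ w (by rw [hw]; simp)
      · rw [hb i] at h1
        exact ⟨_, h1⟩
      · intro j
        refine Fin.cases ?_ (fun j => ?_) j
        · rw [hb0, map_smul, SS_x hL u x₀ hA.x0, Fin.cons_zero, smul_comm]
        · rw [hb, hSe, Fin.cons_succ]
      · refine hsucc _ _ ?_ ?_
        · intro j
          have : (0 : ℝ) ≤ ((j : ℕ) : ℝ) := Nat.cast_nonneg _
          intro h'
          linarith
        · intro j k hjk
          simp only at hjk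
          have : (j : ℕ) = (k : ℕ) := by exact_mod_cast hjk
          exact Fin.ext this
  choose v μ hv0 hμ0 hev using hex
  refine ⟨fun x i => v i x, ?_, ?_⟩
  · funext i
    exact hv0 i
  have hne : ∀ᶠ x in 𝓝 x₀, x ≠ 0 := isOpen_ne.mem_nhds hA.x0
  have hnear : ∀ i, ∀ᶠ x in 𝓝 x₀, |μ i x - ((i : ℕ) : ℝ)| < 1 / 3 := by
    intro i
    have hc : ContinuousAt (μ i) x₀ := ((hev i).self_of_nhds).2.1.continuousAt
    have h1 := hc.eventually (Metric.ball_mem_nhds (μ i x₀) (by norm_num : (0:ℝ) < 1 / 3))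
    filter_upwards [h1] with x hx
    rw [Real.dist_eq, hμ0] at hx
    exact hx
  filter_upwards [hne, eventually_all.2 hev, eventually_all.2 hnear] with x hx hvx hμx
  refine ⟨contDiffAt_pi.2 fun i => (hvx i).1, ?_⟩
  have hμneg : ∀ i, (-1 : ℝ) ≠ μ i x := by
    intro i h'
    have h1 := abs_lt.1 (hμx i)
    have h2 : (0 : ℝ) ≤ ((i : ℕ) : ℝ) := Nat.cast_nonneg _
    linarith [h1.1]
  have hμinj : Function.Injective (fun i => μ i x) := by
    intro i j hij
    have h1 := abs_lt.1 (hμx i)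
    have h2 := abs_lt.1 (hμx j)
    simp only at hij
    have h3 : ((i : ℕ) : ℝ) < ((j : ℕ) : ℝ) + 1 := by linarith [h1.1, h2.2]
    have h4 : ((j : ℕ) : ℝ) < ((i : ℕ) : ℝ) + 1 := by linarith [h2.1, h1.2]
    have h5 : (i : ℕ) < (j : ℕ) + 1 := by exact_mod_cast h3
    have h6 : (j : ℕ) < (i : ℕ) + 1 := by exact_mod_cast h4
    exact Fin.ext (by omega)
  have hrad : ∀ i, ⟪x, v i x⟫_ℝ = 0 := by
    intro i
    have h1 := SS_symm hL u x hx x (v i x)
    rw [SS_x hL u x hx, (hvx i).2.2.1, real_inner_smul_left, real_inner_smul_left,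
      real_inner_comm x (v i x)] at h1
    have h2 : ((-1) - μ i x) * ⟪x, v i x⟫_ℝ = 0 := by linarith
    rcases mul_eq_zero.1 h2 with h3 | h3
    · exact absurd (by linarith) (hμneg i)
    · exact h3
  have hon : ∀ i j, ⟪v i x, v j x⟫_ℝ = if i = j then 1 else 0 := by
    intro i j
    by_cases hij : i = j
    · subst hij
      rw [if_pos rfl, real_inner_self_eq_norm_sq, (hvx i).2.2.2]
      norm_num
    · rw [if_neg hij]
      have h1 := SS_symm hL u x hx (v i x) (v j x)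
      rw [(hvx i).2.2.1, (hvx j).2.2.1, real_inner_smul_left, real_inner_smul_left,
        real_inner_comm (v i x) (v j x)] at h1
      have h2 : (μ i x - μ j x) * ⟪v i x, v j x⟫_ℝ = 0 := by
        linarith
      rcases mul_eq_zero.1 h2 with h3 | h3
      · exact absurd (hμinj (a₁ := i) (a₂ := j) (by simp only; linarith)) hij
      · exact h3
  obtain ⟨b', hb0', hb'⟩ := onb hx hon hrad
  have hspan : ∀ (a : E q) (i : Fin (q + 1)), C x a (v i x) =
      ⟪v i x, C x a (v i x)⟫_ℝ • v i x := by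
    intro a i
    have h1 := eig_span b' (SS C u x) (Fin.cons (-1) (fun i : Fin (q + 1) => μ i x))
      (SS_symm hL u x hx) ?_ (hsucc _ _ hμneg hμinj) i.succ (C x a (v i x)) ?_
    · rw [hb' i] at h1
      exact h1
    · intro j
      refine Fin.cases ?_ (fun j => ?_) j
      · rw [hb0', map_smul, SS_x hL u x hx, Fin.cons_zero, smul_comm]
      · rw [hb', (hvx j).2.2.1, Fin.cons_succ]
    · rw [SS_comm hL u x hx, (hvx i).2.2.1, map_smul, Fin.cons_succ]
  refine ⟨hx, hon, hrad, ?_⟩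
  intro i j hij
  have h1 := hspan (v i x) j
  have h2 := hspan (v j x) i
  rw [hL.comm12 x hx] at h2
  have h3 : ⟪v j x, C x (v i x) (v j x)⟫_ℝ = 0 := by
    rw [h2, real_inner_smul_right, hon, if_neg (fun h' => hij h'.symm), mul_zero]
  rw [h1, h3, zero_smul]

end Pool.Agent.W351.LG.Frm
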